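import Pool.Agent.Y382.DN.Stm

/-!
Sets of numbers decided by decomposable circuits: the asymptotic forms.
-/

set_option autoImplicit false

namespace Pool.Agent.Y436.DN

open Finset Filter Pool.Agent.Y622.NG Pool.Agent.H607R2.BW Pool.Agent.TH454.BW Pool.Agent.Y382.DN

/-- the asymptotic form for representation functions -/
theorem t_REPA (hR : S_REP) : S_REPA := by
  intro t c c' d ht hc' hc
  have ht0 : (0 : ℝ) < t := by exact_mod_cast ht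
  set η : ℝ := min 1 c' / 2 with hη
  have hmin : 0 < min 1 c' := lt_min one_pos hc'
  have hη0 : 0 < η := by positivity
  have hη1 : η ≤ 1 := by
    have := min_le_left 1 c'
    rw [hη]; linarith
  have hηc : η < c' := by
    have := min_le_right 1 c'
    rw [hη]; linarith
  obtain ⟨m₀, hm₀⟩ := asy (2 ^ (3 * t + 4)) c (d / t) η hη0 hc
  refine ⟨max m₀ 1, fun m s A hm hA hr hcard => ?_⟩
  by_contra hcon
  rw [not_lt] at hcon
  have hm1 : 1 ≤ m := (le_max_right _ _).trans hm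
  have h1 : Nat.card {a : ℕ // a ∈ A ∧ a < 2 ^ m} ≤ (2 ^ (1 + 3 * t + 3) * s) ^ t := by
    by_contra hlt
    rw [not_le] at hlt
    obtain ⟨n, hn, h2⟩ := hR A m s 1 t hA hlt
    have := hr n hn
    omega
  have h2 := hm₀ m s ((le_max_left _ _).trans hm) hcon
  have hpos : (0 : ℝ) < 2 ^ m := by positivity
  have h4 : ((2 ^ (3 * t + 4) : ℕ) : ℝ) * (s * m) ≤ η * ((2 : ℝ) ^ m) ^ (d / t) := by
    rw [Real.rpow_add hpos, Real.rpow_one] at h2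
    have h5 : (((2 ^ (3 * t + 4) : ℕ) : ℝ) * ((s : ℝ) * m)) * 2 ^ m ≤
        (η * ((2 : ℝ) ^ m) ^ (d / t)) * 2 ^ m := by
      linarith
    exact le_of_mul_le_mul_right h5 hpos
  have h5 : ((2 ^ (1 + 3 * t + 3) * s : ℕ) : ℝ) ≤ η * ((2 : ℝ) ^ m) ^ (d / t) := by
    refine le_trans ?_ h4
    have h6 : 2 ^ (1 + 3 * t + 3) * s ≤ 2 ^ (3 * t + 4) * (s * m) := by
      have e : 1 + 3 * t + 3 = 3 * t + 4 := by ring
      rw [e]
      exact Nat.mul_le_mul_left _ (Nat.le_mul_of_pos_right s hm1)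
    exact_mod_cast h6
  have h6 : ((Nat.card {a : ℕ // a ∈ A ∧ a < 2 ^ m} : ℕ) : ℝ) ≤
      (η * ((2 : ℝ) ^ m) ^ (d / t)) ^ t := by
    calc ((Nat.card {a : ℕ // a ∈ A ∧ a < 2 ^ m} : ℕ) : ℝ)
        ≤ ((2 ^ (1 + 3 * t + 3) * s : ℕ) : ℝ) ^ t := by exact_mod_cast h1
      _ ≤ _ := pow_le_pow_left₀ (Nat.cast_nonneg _) h5 t
  have h7 : (η * ((2 : ℝ) ^ m) ^ (d / t)) ^ t = η ^ t * ((2 : ℝ) ^ m) ^ d := by
    rw [mul_pow, ← Real.rpow_natCast (((2 : ℝ) ^ m) ^ (d / t)), ← Real.rpow_mul hpos.le,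
      div_mul_cancel₀ _ ht0.ne']
  have h8 : η ^ t ≤ η := by
    calc η ^ t ≤ η ^ 1 := pow_le_pow_of_le_one hη0.le hη1 ht
      _ = η := pow_one η
  have h9 : (0 : ℝ) < ((2 : ℝ) ^ m) ^ d := by positivity
  rw [h7] at h6
  have h10 : η ^ t * ((2 : ℝ) ^ m) ^ d < c' * ((2 : ℝ) ^ m) ^ d :=
    mul_lt_mul_of_pos_right (lt_of_le_of_lt h8 hηc) h9
  linarith

/-- the density condition of the question -/
theorem t_REPF (hRA : S_REPA) : S_REPF := by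
  intro g A t c ht hc hg hg' hA hr
  have ht0 : (0 : ℝ) < t := by exact_mod_cast ht
  obtain ⟨C, hC, hA⟩ := hA
  -- choose `ε`
  obtain ⟨ε, hε, hε2, hcε⟩ : ∃ ε : ℝ, 0 < ε ∧ ε ≤ 1 / 2 ∧ c < (1 / 2 - ε) / t := by
    have h1 : 0 < 1 / (2 * t) - c := by linarith
    refine ⟨min (1 / 2) (t * (1 / (2 * t) - c) / 2), ?_, min_le_left _ _, ?_⟩
    · exact lt_min (by norm_num) (by positivity)
    · have h2 : min (1 / 2) (t * (1 / (2 * t) - c) / 2) ≤ t * (1 / (2 * t) - c) / 2 :=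
        min_le_right _ _
      rw [lt_div_iff₀ ht0]
      have h3 : (t : ℝ) * (1 / (2 * t) - c) = 1 / 2 - c * t := by
        field_simp
      rw [h3] at h2 ⊢
      have h4 : 0 < (t : ℝ) * (1 / (2 * t) - c) := by positivity
      rw [h3] at h4
      linarith
  obtain ⟨m₀, hm₀⟩ := hRA t c (1 / (2 * C)) (1 / 2 - ε) ht (by positivity) hcε
  have hev := (hA.and ((hg' ε hε).and (hg.eventually_gt_atTop 0)))
  obtain ⟨N₀, hN₀⟩ := eventually_atTop.1 hev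
  rw [eventually_atTop]
  refine ⟨max m₀ (N₀ + 1), fun m hm s hs => ?_⟩
  have hm1 : N₀ + 1 ≤ m := (le_max_right _ _).trans hm
  refine hm₀ m s A ((le_max_left _ _).trans hm) hs (fun n _ => hr n) ?_
  obtain ⟨k, rfl⟩ : ∃ k, m = k + 1 := ⟨m - 1, by omega⟩
  have hk : N₀ ≤ 2 ^ k := by
    have : k < 2 ^ k := Nat.lt_two_pow_self
    omega
  obtain ⟨h1, h2, h3⟩ := hN₀ (2 ^ k) hk
  have hNpos : (0 : ℝ) < ((2 ^ k : ℕ) : ℝ) := by positivity
  -- the number of elements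
  have h4 : Nat.card {a : ℕ // a ∈ A ∧ 1 ≤ a ∧ a ≤ 2 ^ k} ≤
      Nat.card {a : ℕ // a ∈ A ∧ a < 2 ^ (k + 1)} := by
    have : Finite {a : ℕ // a ∈ A ∧ a < 2 ^ (k + 1)} := by
      apply Set.Finite.to_subtype
      apply Set.Finite.subset (Set.finite_lt_nat (2 ^ (k + 1)))
      intro a ha
      exact ha.2
    refine Nat.card_le_card_of_injective (fun a => ⟨a.1, a.2.1, ?_⟩) ?_
    · have h5 := a.2.2.2
      have h6 : 0 < 2 ^ k := by positivity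
      rw [pow_succ]
      omega
    · intro a b h
      have h5 := congrArg Subtype.val h
      exact Subtype.ext h5
  have h5 : ((2 ^ k : ℕ) : ℝ) ^ (1 / 2 - ε) ≤ ((2 ^ k : ℕ) : ℝ) ^ (1 / 2 : ℝ) / g (2 ^ k) := by
    rw [le_div_iff₀ h3]
    calc ((2 ^ k : ℕ) : ℝ) ^ (1 / 2 - ε) * g (2 ^ k)
        ≤ ((2 ^ k : ℕ) : ℝ) ^ (1 / 2 - ε) * ((2 ^ k : ℕ) : ℝ) ^ ε :=
          mul_le_mul_of_nonneg_left h2 (by positivity)
      _ = ((2 ^ k : ℕ) : ℝ) ^ (1 / 2 : ℝ) := by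
          rw [← Real.rpow_add hNpos]; congr 1; ring
  have h6 : ((2 : ℝ) ^ (k + 1)) ^ (1 / 2 - ε) ≤ 2 * ((2 ^ k : ℕ) : ℝ) ^ (1 / 2 - ε) := by
    have e : ((2 : ℝ) ^ (k + 1)) = 2 * ((2 ^ k : ℕ) : ℝ) := by push_cast; ring
    rw [e, Real.mul_rpow (by norm_num) hNpos.le]
    apply mul_le_mul_of_nonneg_right _ (by positivity)
    calc (2 : ℝ) ^ (1 / 2 - ε) ≤ 2 ^ (1 : ℝ) :=
          Real.rpow_le_rpow_of_exponent_le (by norm_num) (by linarith)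
      _ = 2 := Real.rpow_one 2
  have h7 : ((Nat.card {a : ℕ // a ∈ A ∧ 1 ≤ a ∧ a ≤ 2 ^ k} : ℕ) : ℝ) ≤
      Nat.card {a : ℕ // a ∈ A ∧ a < 2 ^ (k + 1)} := by exact_mod_cast h4
  have h8 : ((2 : ℝ) ^ (k + 1)) ^ (1 / 2 - ε) ≤
      2 * (C * Nat.card {a : ℕ // a ∈ A ∧ a < 2 ^ (k + 1)}) := by
    have := mul_le_mul_of_nonneg_left h7 hC.le
    linarith
  rw [one_div, inv_mul_le_iff₀ (by positivity)]
  linarith

end Pool.Agent.Y436.DN
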